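import Mathlib
import Pool.Agent.Lib.H38.BdfKey

/-!
MP_bdf9ed Q1, own theorem: Borel sets as centers of distances of Borel sets.
-/

set_option autoImplicit false

namespace Pool.Agent.Results.MP_bdf9ed_an.BorelCenters

open Set Pool.Agent.Lib.H38.Bdf

/-- the center of distances of a set `B` of real numbers: the numbers `α ≥ 0` such that every point
of `B` has a partner in `B` at distance exactly `α` -/
def center (B : Set ℝ) : Set ℝ := {α : ℝ | 0 ≤ α ∧ ∀ x ∈ B, ∃ y ∈ B, |x - y| = α}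

/-- `B` is the union of a `G_δ` set and a `σ`-compact (that is, `F_σ`) set -/
def GdeltaUnionFsigma (B : Set ℝ) : Prop :=
  ∃ G F : Set ℝ, IsGδ G ∧ IsSigmaCompact F ∧ B = G ∪ F

/-- `B` is a countable union of `G_δ` sets -/
def GdeltaSigma (B : Set ℝ) : Prop := ∃ f : ℕ → Set ℝ, (∀ n, IsGδ (f n)) ∧ B = ⋃ n, f n

theorem sigma_R {X : Type*} [TopologicalSpace X] [SigmaCompactSpace X] {u d : X → ℝ}
    (hu : Continuous u) (hd : Continuous d) {A : Set ℝ} (hA : IsGδ A) :
    IsSigmaCompact (R u d (Ici 0 \ A)) := by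
  obtain ⟨f, hf, rfl⟩ := isGδ_iff_eq_iInter_nat.1 hA
  have h1 : {x : X | d x ∈ Ici (0 : ℝ) \ ⋂ n, f n} = ⋃ n, {x : X | 0 ≤ d x ∧ d x ∈ (f n)ᶜ} := by
    ext x
    simp only [mem_setOf_eq, mem_sdiff, mem_Ici, mem_iInter, not_forall, mem_iUnion, mem_compl_iff,
      exists_and_left]
  have h2 : IsSigmaCompact {x : X | d x ∈ Ici (0 : ℝ) \ ⋂ n, f n} := by
    rw [h1]
    refine isSigmaCompact_iUnion _ fun n => ?_
    have hc : IsClosed {x : X | 0 ≤ d x ∧ d x ∈ (f n)ᶜ} :=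
      (isClosed_le continuous_const hd).inter ((hf n).isClosed_compl.preimage hd)
    exact isSigmaCompact_univ.of_isClosed_subset hc (subset_univ _)
  unfold R
  refine isSigmaCompact_iUnion _ fun e => ?_
  exact h2.image (by fun_prop)

/-- the image of a relative `G_δ` subset of a compact set under an injective continuous function -/
theorem gdelta_image {X : Type*} [TopologicalSpace X] {K : Set X} (hK : IsCompact K) {ψ : X → ℝ}
    (hψ : Continuous ψ) (hinj : Function.Injective ψ) {S : Set X} (hS : IsGδ S) :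
    IsGδ (ψ '' (K ∩ S)) := by
  obtain ⟨f, hf, rfl⟩ := isGδ_iff_eq_iInter_nat.1 hS
  have h1 : ψ '' (K ∩ ⋂ n, f n) = (ψ '' K) ∩ ⋂ n, (ψ '' (K \ f n))ᶜ := by
    ext z
    simp only [mem_image, mem_inter_iff, mem_iInter, mem_compl_iff, not_exists, not_and, mem_sdiff]
    constructor
    · rintro ⟨x, ⟨hx, hn⟩, rfl⟩
      refine ⟨⟨x, hx, rfl⟩, fun n y hy hyx => ?_⟩
      rw [hinj hyx] at hy
      exact hy.2 (hn n)
    · rintro ⟨⟨x, hx, rfl⟩, h⟩
      refine ⟨x, ⟨hx, fun n => ?_⟩, rfl⟩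
      by_contra hc
      exact h n x ⟨hx, hc⟩ rfl
  rw [h1]
  refine ((hK.image hψ).isClosed.isGδ).inter (IsGδ.iInter_of_isOpen fun n => ?_)
  exact ((hK.diff (hf n)).image hψ).isClosed.isOpen_compl

theorem gdeltaSigma_R {X : Type*} [TopologicalSpace X] [SigmaCompactSpace X] {u d : X → ℝ}
    (hu : Continuous u) (hd : Continuous d) (hI : Indep u d) {A : Set ℝ} (hA : IsGδ Aᶜ) :
    GdeltaSigma (R u d (Ici 0 \ A)) := by
  have hS : IsGδ {x : X | d x ∈ Ici (0 : ℝ) \ A} := by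
    have h1 : IsGδ (Ici (0 : ℝ) ∩ Aᶜ) := isClosed_Ici.isGδ.inter hA
    exact h1.preimage hd
  have hcount : Nonempty (ℕ × {e : ℚ // 0 < e ∧ e < 2}) := ⟨(0, ⟨1, by norm_num⟩)⟩
  obtain ⟨g, hg⟩ := exists_surjective_nat (ℕ × {e : ℚ // 0 < e ∧ e < 2})
  refine ⟨fun n => (fun x => u x + ((g n).2.1 : ℝ) * d x) ''
    (compactCovering X (g n).1 ∩ {x : X | d x ∈ Ici (0 : ℝ) \ A}), fun n => ?_, ?_⟩
  · refine gdelta_image (isCompact_compactCovering X _) (by fun_prop) ?_ hS
    intro x y hxy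
    exact single_eq hI hxy
  · ext z
    simp only [R, mem_iUnion]
    constructor
    · rintro ⟨e, x, hx, rfl⟩
      obtain ⟨k, hk⟩ := exists_mem_compactCovering x
      obtain ⟨n, hn⟩ := hg (k, e)
      refine ⟨n, x, ⟨?_, hx⟩, ?_⟩
      · rw [hn]
        exact hk
      · simp only [hn]
    · rintro ⟨n, x, ⟨-, hx⟩, rfl⟩
      exact ⟨(g n).2, x, hx, rfl⟩

/-- Q1 of MP_bdf9ed, with control of the descriptive complexity: every set `A` with
`0 ∈ A ⊆ [0, ∞)` is the center of distances of a set `B` of reals which is Borel if `A` is Borel,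
the union of a `G_δ` and an `F_σ` set if `A` is `G_δ`, and a countable union of `G_δ` sets if `A`
is `F_σ`. -/
theorem result (A : Set ℝ) (h0 : (0 : ℝ) ∈ A) (hA : A ⊆ Ici (0 : ℝ)) :
    ∃ B : Set ℝ, center B = A ∧ (MeasurableSet A → MeasurableSet B) ∧
      (IsGδ A → GdeltaUnionFsigma B) ∧ (IsGδ Aᶜ → GdeltaSigma B) := by
  obtain ⟨u, hu, hI⟩ := exists_indep
  have hN : IsGδ (N₀ u dd)ᶜ := by
    have h1 : IsSigmaCompact (N₀ u dd) :=
      isSigmaCompact_iUnion _ fun k => isSigmaCompact_T hu continuous_dd k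
    obtain ⟨K, hK, hK2⟩ := h1
    rw [← hK2, compl_iUnion]
    exact IsGδ.iInter_of_isOpen fun n => (hK n).isClosed.isOpen_compl
  have h3 : (N₀ u dd \ R u dd (Ici 0 \ A))ᶜ = (N₀ u dd)ᶜ ∪ R u dd (Ici 0 \ A) := by
    ext x
    simp only [mem_compl_iff, mem_sdiff, mem_union, not_and, not_not]
    tauto
  refine ⟨(N₀ u dd \ R u dd (Ici 0 \ A))ᶜ, center_eq hI h0 hA dd_surj, fun hm => ?_, fun hG => ?_,
    fun hF => ?_⟩
  · exact ((measurableSet_N₀ hu continuous_dd).diff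
      (measurableSet_R hu continuous_dd hI (measurableSet_Ici.diff hm))).compl
  · exact ⟨(N₀ u dd)ᶜ, R u dd (Ici 0 \ A), hN, sigma_R hu continuous_dd hG, h3⟩
  · obtain ⟨f, hf, hf2⟩ := gdeltaSigma_R hu continuous_dd hI hF
    refine ⟨fun n => Nat.casesOn n (N₀ u dd)ᶜ f, fun n => ?_, ?_⟩
    · cases n with
      | zero => exact hN
      | succ n => exact hf n
    · rw [h3, hf2]
      ext x
      simp only [mem_union, mem_iUnion]
      constructor
      · rintro (h | ⟨n, h⟩)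
        · exact ⟨0, h⟩
        · exact ⟨n + 1, h⟩
      · rintro ⟨n, h⟩
        cases n with
        | zero => exact Or.inl h
        | succ n => exact Or.inr ⟨n, h⟩

end Pool.Agent.Results.MP_bdf9ed_an.BorelCenters
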